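import Mathlib
import Pool.Agent.H93.AR.TargetsD
import Pool.Agent.H19.LS.STRONG

set_option autoImplicit false
set_option linter.unusedSectionVars false

namespace Pool.Agent.H20.BR

open MeasureTheory Set FourierTransform Pool.Agent.H93.AR Pool.Agent.H83.LS Pool.Agent.H54.LS
open Pool.Agent.H19.LS
open scoped ENNReal NNReal ContDiff SchwartzMap

/-- measurable, integrable, bounded -/
def Gd {n : ℕ} (g : EE (n + 1) → ℂ) : Prop :=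
  Measurable g ∧ Integrable g ∧ ∃ A : ℝ, ∀ x, ‖g x‖ ≤ A

/-- the scales -/
noncomputable def Li (K : ℕ) (lam : ℝ) (i : ℕ) : ℝ := lam ^ ((i : ℝ) / (2 * (K : ℝ)))

/-- one minus the square of the angular average -/
noncomputable def Qr {n : ℕ} (L : ℝ) (g : EE (n + 1) → ℂ) (x : EE (n + 1)) : ℂ :=
  g x - AL L (AL L g) x

/-- the successive remainders -/
noncomputable def gs {n : ℕ} (K : ℕ) (lam : ℝ) : ℕ → (EE (n + 1) → ℂ) → EE (n + 1) → ℂ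
  | 0, f => f
  | i + 1, f => Qr (Li K lam (i + 1)) (gs K lam i f)

section

variable {n : ℕ} (hn : 1 ≤ n) (hAM : T_AM) (hAC : T_AC)

include hn hAM

theorem AL_gd {L : ℝ} (hL : 1 ≤ L) {g : EE (n + 1) → ℂ} (hg : Gd g) : Gd (AL L g) := by
  obtain ⟨h1, h2, -, h4, -, -⟩ := hAM n L hn hL
  obtain ⟨hm, hi, A, hA⟩ := hg
  exact ⟨h1 g hm, h4 g hm hi, A, h2 g A hm hA⟩

theorem Qr_gd {L : ℝ} (hL : 1 ≤ L) {g : EE (n + 1) → ℂ} (hg : Gd g) : Gd (Qr L g) := by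
  have h1 := AL_gd hn hAM hL (AL_gd hn hAM hL hg)
  obtain ⟨hm, hi, A, hA⟩ := hg
  obtain ⟨hm', hi', A', hA'⟩ := h1
  exact ⟨hm.sub hm', hi.sub hi', A + A', fun x => (norm_sub_le _ _).trans
    (add_le_add (hA x) (hA' x))⟩

theorem AL_sub {L : ℝ} (hL : 1 ≤ L) {f g : EE (n + 1) → ℂ} (hf : Gd f) (hg : Gd g) :
    AL L (fun x => f x - g x) = fun x => AL L f x - AL L g x := by
  funext x
  exact (hAM n L hn hL).2.2.2.2.2 f g hf.1 hg.1 hf.2.2 hg.2.2 x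

omit hn hAM in
theorem ediff_rpow (p : ℝ) (hp : 1 ≤ p) (a b : ℂ) :
    ‖a - b‖ₑ ^ p ≤ (2 : ℝ≥0∞) ^ (p - 1) * (‖a‖ₑ ^ p + ‖b‖ₑ ^ p) := by
  refine (ENNReal.rpow_le_rpow (enorm_sub_le) (by linarith)).trans ?_
  exact ENNReal.rpow_add_le_mul_rpow_add_rpow _ _ hp

omit hn hAM in
theorem eadd_rpow (p : ℝ) (hp : 1 ≤ p) (a b : ℂ) :
    ‖a + b‖ₑ ^ p ≤ (2 : ℝ≥0∞) ^ (p - 1) * (‖a‖ₑ ^ p + ‖b‖ₑ ^ p) := by
  refine (ENNReal.rpow_le_rpow (enorm_add_le _ _) (by linarith)).trans ?_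
  exact ENNReal.rpow_add_le_mul_rpow_add_rpow _ _ hp

omit hn hAM in
theorem two_mul_rpow (p : ℝ) : (2 : ℝ≥0∞) ^ (p - 1) * 2 = 2 ^ p := by
  have h : (2 : ℝ≥0∞) ^ (p - 1) * 2 ^ (1 : ℝ) = 2 ^ (p - 1 + 1) :=
    (ENNReal.rpow_add _ _ (by norm_num) (by norm_num)).symm
  rw [ENNReal.rpow_one] at h
  rw [h]
  congr 1
  ring

omit hn hAM in
/-- if `‖c x‖ ≤ ‖a x‖ + ‖b x‖` in `L^p` with `b` at most as large as `a` -/
theorem lp_sub (p : ℝ) (hp : 1 ≤ p) {a b : EE (n + 1) → ℂ} (ha : Measurable a)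
    (hab : ∫⁻ x, ‖b x‖ₑ ^ p ≤ ∫⁻ x, ‖a x‖ₑ ^ p) (c : EE (n + 1) → ℂ)
    (hc : ∀ x, ‖c x‖ₑ ^ p ≤ (2 : ℝ≥0∞) ^ (p - 1) * (‖a x‖ₑ ^ p + ‖b x‖ₑ ^ p)) :
    ∫⁻ x, ‖c x‖ₑ ^ p ≤ 2 ^ p * ∫⁻ x, ‖a x‖ₑ ^ p := by
  have h2 : (2 : ℝ≥0∞) ^ (p - 1) ≠ ⊤ := by
    apply ENNReal.rpow_ne_top_of_nonneg (by linarith) (by norm_num)
  calc ∫⁻ x, ‖c x‖ₑ ^ p ≤ ∫⁻ x, (2 : ℝ≥0∞) ^ (p - 1) * (‖a x‖ₑ ^ p + ‖b x‖ₑ ^ p) :=
        lintegral_mono hc
    _ = (2 : ℝ≥0∞) ^ (p - 1) * ((∫⁻ x, ‖a x‖ₑ ^ p) + ∫⁻ x, ‖b x‖ₑ ^ p) := by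
        rw [lintegral_const_mul' _ _ h2, lintegral_add_left (ha.enorm.pow_const p)]
    _ ≤ (2 : ℝ≥0∞) ^ (p - 1) * ((∫⁻ x, ‖a x‖ₑ ^ p) + ∫⁻ x, ‖a x‖ₑ ^ p) := by gcongr
    _ = _ := by
        rw [← two_mul, ← mul_assoc, two_mul_rpow]

theorem Qr_lp {L p : ℝ} (hL : 1 ≤ L) (hp : 1 ≤ p) {g : EE (n + 1) → ℂ} (hg : Gd g) :
    ∫⁻ x, ‖Qr L g x‖ₑ ^ p ≤ 2 ^ p * ∫⁻ x, ‖g x‖ₑ ^ p := by
  have h3 := (hAM n L hn hL).2.2.1
  refine lp_sub p hp hg.1 (b := AL L (AL L g)) ?_ _ fun x => ediff_rpow p hp _ _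
  exact (h3 (AL L g) p (AL_gd hn hAM hL hg).1 hp).trans (h3 g p hg.1 hp)

include hAC

theorem AL_comm {L L' : ℝ} (hL : 1 ≤ L) (hL' : 1 ≤ L') {g : EE (n + 1) → ℂ} (hg : Gd g) :
    AL L (AL L' g) = AL L' (AL L g) := by
  funext x
  exact hAC n L L' g hn hL hL' hg.1 hg.2.2 x

theorem AL_comm4 {L L' : ℝ} (hL : 1 ≤ L) (hL' : 1 ≤ L') {g : EE (n + 1) → ℂ} (hg : Gd g) :
    AL L (AL L (AL L' (AL L' g))) = AL L' (AL L' (AL L (AL L g))) := by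
  have hg' := AL_gd hn hAM hL' hg
  have hg1 := AL_gd hn hAM hL hg
  rw [AL_comm hn hAM hAC hL hL' hg', AL_comm hn hAM hAC hL hL' hg,
    AL_comm hn hAM hAC hL hL' (AL_gd hn hAM hL' hg1), AL_comm hn hAM hAC hL hL' hg1]

theorem Qr_comm {L L' : ℝ} (hL : 1 ≤ L) (hL' : 1 ≤ L') {g : EE (n + 1) → ℂ} (hg : Gd g) :
    Qr L (Qr L' g) = Qr L' (Qr L g) := by
  have hA : ∀ {L : ℝ}, 1 ≤ L → ∀ {g : EE (n + 1) → ℂ}, Gd g → Gd (AL L g) :=
    fun hL _ hg => AL_gd hn hAM hL hg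
  have key : ∀ {L L' : ℝ}, 1 ≤ L → 1 ≤ L' → ∀ x, Qr L (Qr L' g) x =
      g x - AL L' (AL L' g) x - (AL L (AL L g) x - AL L (AL L (AL L' (AL L' g))) x) := by
    intro L L' hL hL' x
    have e1 : AL L (Qr L' g) = fun x => AL L g x - AL L (AL L' (AL L' g)) x := by
      have : Qr L' g = fun x => g x - AL L' (AL L' g) x := rfl
      rw [this]
      exact AL_sub hn hAM hL hg (hA hL' (hA hL' hg))
    have e2 : AL L (AL L (Qr L' g)) = fun x => AL L (AL L g) x -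
        AL L (AL L (AL L' (AL L' g))) x := by
      rw [e1]
      exact AL_sub hn hAM hL (hA hL hg) (hA hL (hA hL' (hA hL' hg)))
    show Qr L' g x - AL L (AL L (Qr L' g)) x = _
    rw [e2]
    rfl
  funext x
  rw [key hL hL' x, key hL' hL x, AL_comm4 hn hAM hAC hL hL' hg]
  ring

end

section

variable {K : ℕ} {lam : ℝ}

theorem Li_ge (hl : 1 ≤ lam) (i : ℕ) : 1 ≤ Li K lam i :=
  Real.one_le_rpow hl (by positivity)

theorem Li_zero : Li K lam 0 = 1 := by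
  unfold Li
  simp

end

section

variable {n : ℕ} (hn : 1 ≤ n) (hAM : T_AM) (hAC : T_AC) {K : ℕ} {lam : ℝ} (hl : 1 ≤ lam)

include hn hAM hl

theorem gs_gd (i : ℕ) {f : EE (n + 1) → ℂ} (hf : Gd f) : Gd (gs K lam i f) := by
  induction i with
  | zero => exact hf
  | succ i ih => exact Qr_gd hn hAM (Li_ge hl _) ih

theorem gs_lp {p : ℝ} (hp : 1 ≤ p) (i : ℕ) {f : EE (n + 1) → ℂ} (hf : Gd f) :
    ∫⁻ x, ‖gs K lam i f x‖ₑ ^ p ≤ ((2 : ℝ≥0∞) ^ p) ^ i * ∫⁻ x, ‖f x‖ₑ ^ p := by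
  induction i with
  | zero => simp [gs]
  | succ i ih =>
    refine (Qr_lp hn hAM (Li_ge hl _) hp (gs_gd hn hAM hl i hf)).trans ?_
    rw [pow_succ, mul_comm (((2 : ℝ≥0∞) ^ p) ^ i), mul_assoc]
    exact mul_le_mul' le_rfl ih

include hAC

theorem gs_comm {L : ℝ} (hL : 1 ≤ L) (i : ℕ) {f : EE (n + 1) → ℂ} (hf : Gd f) :
    Qr L (gs K lam i f) = gs K lam i (Qr L f) := by
  induction i with
  | zero => rfl
  | succ i ih =>
    show Qr L (Qr (Li K lam (i + 1)) (gs K lam i f)) =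
      Qr (Li K lam (i + 1)) (gs K lam i (Qr L f))
    rw [Qr_comm hn hAM hAC hL (Li_ge hl _) (gs_gd hn hAM hl i hf), ih]

end

/-- the multiplier is additive -/
theorem MM_sub {n : ℕ} {lam : ℝ} (hl0 : 0 < lam) (hPLE : T_PLE) (t : ℝ)
    {a b : EE (n + 1) → ℂ} (ha : Gd a) (hb : Gd b) (x : EE (n + 1)) :
    MM (mT lam t) (fun x => a x - b x) x = MM (mT lam t) a x - MM (mT lam t) b x := by
  obtain ⟨ham, hai, A, hA⟩ := ha
  obtain ⟨hbm, hbi, B, hB⟩ := hb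
  have hsb : ∀ y, ‖a y - b y‖ ≤ A + B := fun y => (norm_sub_le _ _).trans (add_le_add (hA y) (hB y))
  rw [MM_conv lam hl0 hPLE t (fun x => a x - b x) (hai.sub hbi) (ham.sub hbm) ⟨_, hsb⟩ x,
    MM_conv lam hl0 hPLE t a hai ham ⟨A, hA⟩ x, MM_conv lam hl0 hPLE t b hbi hbm ⟨B, hB⟩ x]
  have hKm : AEStronglyMeasurable (fun y : EE (n + 1) => MK (mT lam t) (x - y)) :=
    ((MK_cont lam hl0 t).comp (continuous_const.sub continuous_id)).aestronglyMeasurable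
  have hint : ∀ g : EE (n + 1) → ℂ, Integrable g →
      Integrable fun y => MK (mT lam t) (x - y) * g y := fun g hg =>
    hg.bdd_mul (c := ∫ ξ : EE (n + 1), ‖mT lam t ξ‖) hKm
      (Filter.Eventually.of_forall fun y => MK_le lam hl0 t _)
  rw [← integral_sub (hint a hai) (hint b hbi)]
  congr 1
  funext y
  ring

/-- the Lebesgue norms of the remainders -/
theorem gs_bd {n : ℕ} (hn : 1 ≤ n) (hAM : T_AM) (hAC : T_AC) {p : ℝ} (hp : 1 ≤ p) {K : ℕ}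
    {CD : ℝ≥0} (hCD : ∀ (L : ℝ) (f : 𝓢(EE (n + 1), ℂ)), 1 ≤ L →
      ∫⁻ x, ‖f x - AL L f x‖ₑ ^ p ≤
        CD * ENNReal.ofReal (L ^ (-p)) * ∑ i : Fin n, ∑ j : Fin n, ∫⁻ x, ‖rot i j f x‖ₑ ^ p)
    {lam : ℝ} (hl : 1 ≤ lam) (f : 𝓢(EE (n + 1), ℂ)) (hf : Gd (f : EE (n + 1) → ℂ)) (B₀ B₁ : ℝ≥0∞)
    (h01 : B₀ ≤ B₁) (hB₀ : ∫⁻ x, ‖f x‖ₑ ^ p ≤ B₀)
    (hB₁ : ∀ i j : Fin n, ∫⁻ x, ‖rot i j f x‖ₑ ^ p ≤ B₁) (i : ℕ)
    (hi : i ≤ K) :
    ∫⁻ x, ‖gs K lam i f x‖ₑ ^ p ≤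
      (1 + ((2 : ℝ≥0∞) ^ p) ^ K * (1 + CD * ((n : ℝ≥0∞) * n))) *
        (ENNReal.ofReal (Li K lam i ^ (-p)) * B₁) := by
  have hT : (1 : ℝ≥0∞) ≤ 2 ^ p := ENNReal.one_le_rpow (by norm_num) (by linarith)
  rcases i with _ | i
  · rw [Li_zero, Real.one_rpow, ENNReal.ofReal_one, one_mul]
    have h1 : ∫⁻ x, ‖(f : EE (n + 1) → ℂ) x‖ₑ ^ p ≤ B₁ := hB₀.trans h01
    show ∫⁻ x, ‖(f : EE (n + 1) → ℂ) x‖ₑ ^ p ≤ _
    calc ∫⁻ x, ‖(f : EE (n + 1) → ℂ) x‖ₑ ^ p ≤ 1 * B₁ := by rw [one_mul]; exact h1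
      _ ≤ _ := mul_le_mul' le_self_add le_rfl
  · set L := Li K lam (i + 1) with hL
    have hL1 : 1 ≤ L := Li_ge hl _
    have e1 : gs K lam (i + 1) (f : EE (n + 1) → ℂ) = gs K lam i (Qr L f) :=
      gs_comm hn hAM hAC hl hL1 i hf
    have hAf := AL_gd hn hAM hL1 hf
    have hd : Gd (fun x => f x - AL L f x) := by
      obtain ⟨hm, hi, A, hA⟩ := hf
      obtain ⟨hm', hi', A', hA'⟩ := hAf
      exact ⟨hm.sub hm', hi.sub hi', A + A', fun x => (norm_sub_le _ _).trans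
        (add_le_add (hA x) (hA' x))⟩
    have h2 : ∫⁻ x, ‖Qr L f x‖ₑ ^ p ≤ 2 ^ p * ∫⁻ x, ‖f x - AL L f x‖ₑ ^ p := by
      refine lp_sub p hp hd.1 (b := AL L (fun x => f x - AL L f x))
        ((hAM n L hn hL1).2.2.1 _ p hd.1 hp) _ fun x => ?_
      have e2 : Qr L f x = (f x - AL L f x) + AL L (fun x => f x - AL L f x) x := by
        rw [AL_sub hn hAM hL1 hf hAf]
        show f x - AL L (AL L f) x = _
        ring
      rw [e2]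
      exact eadd_rpow p hp _ _
    have h3 : ∑ i : Fin n, ∑ j : Fin n, ∫⁻ x, ‖rot i j f x‖ₑ ^ p ≤ ((n : ℝ≥0∞) * n) * B₁ := by
      calc ∑ i : Fin n, ∑ j : Fin n, ∫⁻ x, ‖rot i j f x‖ₑ ^ p
          ≤ ∑ _i : Fin n, ∑ _j : Fin n, B₁ :=
            Finset.sum_le_sum fun i _ => Finset.sum_le_sum fun j _ => hB₁ i j
        _ = _ := by
            rw [Finset.sum_const, Finset.sum_const, Finset.card_univ, Fintype.card_fin,
              nsmul_eq_mul, nsmul_eq_mul]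
            ring
    rw [e1]
    calc ∫⁻ x, ‖gs K lam i (Qr L f) x‖ₑ ^ p
        ≤ ((2 : ℝ≥0∞) ^ p) ^ i * ∫⁻ x, ‖Qr L f x‖ₑ ^ p :=
          gs_lp hn hAM hl hp i (Qr_gd hn hAM hL1 hf)
      _ ≤ ((2 : ℝ≥0∞) ^ p) ^ i * (2 ^ p * (CD * ENNReal.ofReal (L ^ (-p)) *
          (((n : ℝ≥0∞) * n) * B₁))) := by
          refine mul_le_mul' le_rfl (h2.trans (mul_le_mul' le_rfl ?_))
          exact (hCD L f hL1).trans (mul_le_mul' le_rfl h3)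
      _ = ((2 : ℝ≥0∞) ^ p) ^ (i + 1) * (CD * ((n : ℝ≥0∞) * n)) *
          (ENNReal.ofReal (L ^ (-p)) * B₁) := by
          ring
      _ ≤ _ := by
          refine mul_le_mul' ?_ le_rfl
          refine le_trans ?_ le_add_self
          exact mul_le_mul' (pow_le_pow_right' hT hi) le_add_self

/-- interpolation between the two bounds -/
theorem gs_int {n : ℕ} (hn : 1 ≤ n) (hAM : T_AM) (hAC : T_AC) {p : ℝ} (hp : 2 < p) {K : ℕ}
    {CD : ℝ≥0} (hCD : ∀ (L : ℝ) (f : 𝓢(EE (n + 1), ℂ)), 1 ≤ L →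
      ∫⁻ x, ‖f x - AL L f x‖ₑ ^ p ≤
        CD * ENNReal.ofReal (L ^ (-p)) * ∑ i : Fin n, ∑ j : Fin n, ∫⁻ x, ‖rot i j f x‖ₑ ^ p)
    {lam : ℝ} (hl : 1 ≤ lam) (f : 𝓢(EE (n + 1), ℂ)) (hf : Gd (f : EE (n + 1) → ℂ)) (B₀ B₁ : ℝ≥0∞)
    (h01 : B₀ ≤ B₁) (hB₀ : ∫⁻ x, ‖f x‖ₑ ^ p ≤ B₀)
    (hB₁ : ∀ i j : Fin n, ∫⁻ x, ‖rot i j f x‖ₑ ^ p ≤ B₁) (i : ℕ)
    (hi : i ≤ K) :
    ∫⁻ x, ‖gs K lam i f x‖ₑ ^ p ≤
      (1 + ((2 : ℝ≥0∞) ^ p) ^ K * (1 + CD * ((n : ℝ≥0∞) * n))) *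
        ENNReal.ofReal (Li K lam i ^ (-(2 : ℝ))) * (B₀ ^ (1 - 2 / p) * B₁ ^ (2 / p)) := by
  have hT : (1 : ℝ≥0∞) ≤ 2 ^ p := ENNReal.one_le_rpow (by norm_num) (by linarith)
  have h1 := gs_bd (K := K) hn hAM hAC (by linarith : (1 : ℝ) ≤ p) hCD hl f hf B₀ B₁ h01 hB₀ hB₁ i hi
  set M : ℝ≥0∞ := 1 + ((2 : ℝ≥0∞) ^ p) ^ K * (1 + CD * ((n : ℝ≥0∞) * n)) with hM
  have h2 : ∫⁻ x, ‖gs K lam i f x‖ₑ ^ p ≤ M * B₀ := by
    refine (gs_lp hn hAM hl (by linarith : (1 : ℝ) ≤ p) i hf).trans ?_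
    refine mul_le_mul' ?_ hB₀
    calc ((2 : ℝ≥0∞) ^ p) ^ i ≤ ((2 : ℝ≥0∞) ^ p) ^ K := pow_le_pow_right' hT hi
      _ = ((2 : ℝ≥0∞) ^ p) ^ K * 1 := (mul_one _).symm
      _ ≤ ((2 : ℝ≥0∞) ^ p) ^ K * (1 + CD * ((n : ℝ≥0∞) * n)) := mul_le_mul' le_rfl le_self_add
      _ ≤ M := le_add_self
  set a := ∫⁻ x, ‖gs K lam i f x‖ₑ ^ p with ha
  have hc0 : 0 ≤ 2 / p := by positivity
  have hc1 : 0 ≤ 1 - 2 / p := by
    rw [sub_nonneg, div_le_one (by linarith)]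
    linarith
  have hL1 : 1 ≤ Li K lam i := Li_ge hl i
  have hL0 : 0 ≤ Li K lam i := by linarith
  have e1 : a = a ^ (1 - 2 / p) * a ^ (2 / p) := by
    rw [← ENNReal.rpow_add_of_nonneg _ _ hc1 hc0]
    have : 1 - 2 / p + 2 / p = 1 := by ring
    rw [this, ENNReal.rpow_one]
  have e2 : M ^ (1 - 2 / p) * M ^ (2 / p) = M := by
    rw [← ENNReal.rpow_add_of_nonneg _ _ hc1 hc0]
    have : 1 - 2 / p + 2 / p = 1 := by ring
    rw [this, ENNReal.rpow_one]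
  have e3 : ENNReal.ofReal (Li K lam i ^ (-p)) ^ (2 / p) =
      ENNReal.ofReal (Li K lam i ^ (-(2 : ℝ))) := by
    rw [ENNReal.ofReal_rpow_of_nonneg (Real.rpow_nonneg hL0 _) hc0, ← Real.rpow_mul hL0]
    congr 2
    field_simp
  rw [e1]
  calc a ^ (1 - 2 / p) * a ^ (2 / p)
      ≤ (M * B₀) ^ (1 - 2 / p) * (M * (ENNReal.ofReal (Li K lam i ^ (-p)) * B₁)) ^ (2 / p) :=
        mul_le_mul' (ENNReal.rpow_le_rpow h2 hc1) (ENNReal.rpow_le_rpow h1 hc0)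
    _ = (M ^ (1 - 2 / p) * M ^ (2 / p)) * ENNReal.ofReal (Li K lam i ^ (-(2 : ℝ))) *
        (B₀ ^ (1 - 2 / p) * B₁ ^ (2 / p)) := by
        rw [ENNReal.mul_rpow_of_nonneg _ _ hc1, ENNReal.mul_rpow_of_nonneg _ _ hc0,
          ENNReal.mul_rpow_of_nonneg _ _ hc0, e3]
        ring
    _ = _ := by rw [e2]

theorem pf_bl1 (hSG : T_SG) (hFX : T_FX) (hAM : T_AM) (hAC : T_AC) (hAD : T_AD) (hPLE : T_PLE) :
    T_BL1 := by
  intro n p η hn hp hη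
  have hn1 : 1 ≤ n := by omega
  have hn0 : (0 : ℝ) < n := by
    have : 0 < n := by omega
    exact_mod_cast this
  have h2n : 0 < 2 / (n : ℝ) := by positivity
  have hp2 : 2 < p := by linarith
  have hp1 : 1 ≤ p := by linarith
  obtain ⟨K, hK⟩ := exists_nat_gt (2 / η)
  have hKpos : (0 : ℝ) < K := lt_trans (by positivity) hK
  have hK1 : 1 / (K : ℝ) ≤ η / 2 := by
    rw [div_le_iff₀ hKpos]
    rw [div_lt_iff₀ hη] at hK
    nlinarith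
  obtain ⟨CS, hCS⟩ := hSG n p (η / 2) hn hp (by positivity)
  obtain ⟨CF, hCF⟩ := hFX n p η hn1 hp2 hη
  obtain ⟨CD, hCD⟩ := hAD n p hn1 hp1
  set E : ℝ := (n : ℝ) * (p / 2 - 1) with hE
  set T : ℝ≥0∞ := 2 ^ p with hTdef
  have hT : (1 : ℝ≥0∞) ≤ T := ENNReal.one_le_rpow (by norm_num) (by linarith)
  have hTtop : T ≠ ⊤ := ENNReal.rpow_ne_top_of_nonneg (by linarith) (by norm_num)
  set M : ℝ≥0∞ := 1 + T ^ K * (1 + CD * ((n : ℝ≥0∞) * n)) with hM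
  have hMtop : M ≠ ⊤ := by
    rw [hM]
    refine ENNReal.add_ne_top.2 ⟨by norm_num, ENNReal.mul_ne_top (ENNReal.pow_ne_top hTtop)
      (ENNReal.add_ne_top.2 ⟨by norm_num, ENNReal.mul_ne_top ENNReal.coe_ne_top
        (ENNReal.mul_ne_top (ENNReal.natCast_ne_top n) (ENNReal.natCast_ne_top n))⟩)⟩
  set c0 : ℝ≥0∞ := ((CS : ℝ≥0∞) + CF) * M with hc0
  have hc0top : c0 ≠ ⊤ := ENNReal.mul_ne_top
    (ENNReal.add_ne_top.2 ⟨ENNReal.coe_ne_top, ENNReal.coe_ne_top⟩) hMtop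
  have hCtop : T ^ K * c0 ≠ ⊤ := ENNReal.mul_ne_top (ENNReal.pow_ne_top hTtop) hc0top
  refine ⟨(T ^ K * c0).toNNReal, fun lam f B₀ B₁ hl h01 hB₀ hB₁ => ?_⟩
  rw [ENNReal.coe_toNNReal hCtop]
  have hl0 : 0 < lam := by linarith
  have hf : Gd (f : EE (n + 1) → ℂ) :=
    ⟨f.continuous.measurable, f.integrable, _, fun x => SchwartzMap.norm_le_seminorm ℂ f x⟩
  have hg : ∀ i, Gd (gs K lam i (f : EE (n + 1) → ℂ)) := fun i => gs_gd hn1 hAM hl i hf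
  have hmeas : ∀ g : EE (n + 1) → ℂ, Gd g →
      Measurable fun q : ℝ × EE (n + 1) => ‖MM (mT lam q.1) g q.2‖ₑ ^ p := fun g hg =>
    (MM_cont lam hl0 g hg.2.1).measurable.enorm.pow_const p
  have hbd := gs_int (K := K) hn1 hAM hAC hp2 hCD hl f hf B₀ B₁ h01 hB₀ hB₁
  set B : ℝ≥0∞ := B₀ ^ (1 - 2 / p) * B₁ ^ (2 / p) with hBdef
  set X : ℝ≥0∞ := ENNReal.ofReal (lam ^ (E - 1 + η)) * B with hX
  -- the pieces
  have hJ : ∀ i < K, ∫⁻ q, ‖MM (mT lam q.1) (AL (Li K lam (i + 1)) (AL (Li K lam (i + 1))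
      (gs K lam i f))) q.2‖ₑ ^ p ∂(stm (n + 1)) ≤ c0 * X := by
    intro i hi
    have hL1 : 1 ≤ Li K lam (i + 1) := Li_ge hl _
    have hL2 : Li K lam (i + 1) ^ 2 ≤ lam := by
      have e : Li K lam (i + 1) ^ 2 = lam ^ (((i + 1 : ℕ) : ℝ) / K) := by
        unfold Li
        rw [← Real.rpow_natCast, ← Real.rpow_mul hl0.le]
        congr 1
        push_cast
        field_simp
      rw [e]
      calc lam ^ (((i + 1 : ℕ) : ℝ) / K) ≤ lam ^ (1 : ℝ) := by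
            apply Real.rpow_le_rpow_of_exponent_le hl
            rw [div_le_one hKpos]
            exact_mod_cast hi
        _ = lam := Real.rpow_one lam
    have hgi := hg i
    have hAA : Gd (AL (Li K lam (i + 1)) (AL (Li K lam (i + 1)) (gs K lam i f))) :=
      AL_gd hn1 hAM hL1 (AL_gd hn1 hAM hL1 hgi)
    rw [← st_eq _ (hmeas _ hAA)]
    refine (hCS lam (Li K lam (i + 1)) (gs K lam i f) hL1 hL2 hgi.1 hgi.2.1 hgi.2.2).trans ?_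
    refine (mul_le_mul' le_rfl (hbd i hi.le)).trans ?_
    have hreal : lam ^ (E - 1 + η / 2) * Li K lam (i + 1) ^ 2 * Li K lam i ^ (-(2 : ℝ)) ≤
        lam ^ (E - 1 + η) := by
      have e : lam ^ (E - 1 + η / 2) * Li K lam (i + 1) ^ 2 * Li K lam i ^ (-(2 : ℝ)) =
          lam ^ (E - 1 + η / 2 + ((i + 1 : ℕ) : ℝ) / (2 * K) * (2 : ℕ) +
            (i : ℝ) / (2 * K) * (-(2 : ℝ))) := by
        unfold Li
        rw [← Real.rpow_natCast, ← Real.rpow_mul hl0.le, ← Real.rpow_mul hl0.le,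
          ← Real.rpow_add hl0, ← Real.rpow_add hl0]
      rw [e]
      apply Real.rpow_le_rpow_of_exponent_le hl
      have h1 : ((i + 1 : ℕ) : ℝ) / (2 * K) * (2 : ℕ) + (i : ℝ) / (2 * K) * (-(2 : ℝ)) =
          1 / K := by
        push_cast
        field_simp
        ring
      linarith
    have hL0 : (0 : ℝ) ≤ lam ^ (E - 1 + η / 2) * Li K lam (i + 1) ^ 2 := by positivity
    calc (CS : ℝ≥0∞) * ENNReal.ofReal (lam ^ ((n : ℝ) * (p / 2 - 1) - 1 + η / 2) *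
          Li K lam (i + 1) ^ 2) * (M * ENNReal.ofReal (Li K lam i ^ (-(2 : ℝ))) * B)
        = (CS : ℝ≥0∞) * M * (ENNReal.ofReal (lam ^ (E - 1 + η / 2) * Li K lam (i + 1) ^ 2) *
            ENNReal.ofReal (Li K lam i ^ (-(2 : ℝ))) * B) := by
          rw [hE]
          ring
      _ ≤ c0 * X := by
          refine mul_le_mul' (mul_le_mul' le_self_add le_rfl) (mul_le_mul' ?_ le_rfl)
          rw [← ENNReal.ofReal_mul hL0]
          exact ENNReal.ofReal_le_ofReal hreal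
  have hI : ∫⁻ q, ‖MM (mT lam q.1) (gs K lam K f) q.2‖ₑ ^ p ∂(stm (n + 1)) ≤ c0 * X := by
    have hgi := hg K
    rw [← st_eq _ (hmeas _ hgi)]
    refine (hCF lam (gs K lam K f) hl hgi.1 hgi.2.1 hgi.2.2).trans ?_
    refine (mul_le_mul' le_rfl (hbd K le_rfl)).trans ?_
    have hreal : lam ^ (E + η) * Li K lam K ^ (-(2 : ℝ)) ≤ lam ^ (E - 1 + η) := by
      have e : lam ^ (E + η) * Li K lam K ^ (-(2 : ℝ)) =
          lam ^ (E + η + (K : ℝ) / (2 * K) * (-(2 : ℝ))) := by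
        unfold Li
        rw [← Real.rpow_mul hl0.le, ← Real.rpow_add hl0]
      rw [e]
      apply Real.rpow_le_rpow_of_exponent_le hl
      have h1 : (K : ℝ) / (2 * K) * (-(2 : ℝ)) = -1 := by
        field_simp
      linarith
    have hL0 : (0 : ℝ) ≤ lam ^ (E + η) := by positivity
    calc (CF : ℝ≥0∞) * ENNReal.ofReal (lam ^ ((n : ℝ) * (p / 2 - 1) + η)) *
          (M * ENNReal.ofReal (Li K lam K ^ (-(2 : ℝ))) * B)
        = (CF : ℝ≥0∞) * M * (ENNReal.ofReal (lam ^ (E + η)) *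
            ENNReal.ofReal (Li K lam K ^ (-(2 : ℝ))) * B) := by
          rw [hE]
          ring
      _ ≤ c0 * X := by
          refine mul_le_mul' (mul_le_mul' le_add_self le_rfl) (mul_le_mul' ?_ le_rfl)
          rw [← ENNReal.ofReal_mul hL0]
          exact ENNReal.ofReal_le_ofReal hreal
  -- downward induction
  have hind : ∀ j ≤ K, ∫⁻ q, ‖MM (mT lam q.1) (gs K lam (K - j) f) q.2‖ₑ ^ p ∂(stm (n + 1)) ≤
      T ^ j * (c0 * X) := by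
    intro j
    induction j with
    | zero =>
      intro _
      rw [pow_zero, one_mul]
      exact hI
    | succ j ih =>
      intro hj
      have ih' := ih (by omega)
      obtain ⟨i, hi⟩ : ∃ i, K - j = i + 1 := ⟨K - (j + 1), by omega⟩
      have hi' : K - (j + 1) = i := by omega
      have hiK : i < K := by omega
      rw [hi] at ih'
      rw [hi']
      have hL1 : 1 ≤ Li K lam (i + 1) := Li_ge hl _
      have hgi := hg i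
      have hAA : Gd (AL (Li K lam (i + 1)) (AL (Li K lam (i + 1)) (gs K lam i f))) :=
        AL_gd hn1 hAM hL1 (AL_gd hn1 hAM hL1 hgi)
      have h2top : (2 : ℝ≥0∞) ^ (p - 1) ≠ ⊤ := by
        apply ENNReal.rpow_ne_top_of_nonneg (by linarith) (by norm_num)
      have hpt : ∀ q : ℝ × EE (n + 1), ‖MM (mT lam q.1) (gs K lam i f) q.2‖ₑ ^ p ≤
          (2 : ℝ≥0∞) ^ (p - 1) * (‖MM (mT lam q.1) (AL (Li K lam (i + 1))
            (AL (Li K lam (i + 1)) (gs K lam i f))) q.2‖ₑ ^ p +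
            ‖MM (mT lam q.1) (gs K lam (i + 1) f) q.2‖ₑ ^ p) := by
        intro q
        have h1 : MM (mT lam q.1) (gs K lam (i + 1) f) q.2 =
            MM (mT lam q.1) (gs K lam i f) q.2 -
            MM (mT lam q.1) (AL (Li K lam (i + 1)) (AL (Li K lam (i + 1)) (gs K lam i f))) q.2 :=
          MM_sub hl0 hPLE q.1 hgi hAA q.2
        have h2 : MM (mT lam q.1) (gs K lam i f) q.2 =
            MM (mT lam q.1) (AL (Li K lam (i + 1)) (AL (Li K lam (i + 1)) (gs K lam i f))) q.2 +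
            MM (mT lam q.1) (gs K lam (i + 1) f) q.2 := by
          rw [h1]
          ring
        rw [h2]
        exact eadd_rpow p hp1 _ _
      have hT1 : (1 : ℝ≥0∞) ≤ T ^ j := one_le_pow₀ hT
      calc ∫⁻ q, ‖MM (mT lam q.1) (gs K lam i f) q.2‖ₑ ^ p ∂(stm (n + 1))
          ≤ ∫⁻ q, (2 : ℝ≥0∞) ^ (p - 1) * (‖MM (mT lam q.1) (AL (Li K lam (i + 1))
            (AL (Li K lam (i + 1)) (gs K lam i f))) q.2‖ₑ ^ p +
            ‖MM (mT lam q.1) (gs K lam (i + 1) f) q.2‖ₑ ^ p) ∂(stm (n + 1)) :=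
            lintegral_mono hpt
        _ = (2 : ℝ≥0∞) ^ (p - 1) * ((∫⁻ q, ‖MM (mT lam q.1) (AL (Li K lam (i + 1))
            (AL (Li K lam (i + 1)) (gs K lam i f))) q.2‖ₑ ^ p ∂(stm (n + 1))) +
            ∫⁻ q, ‖MM (mT lam q.1) (gs K lam (i + 1) f) q.2‖ₑ ^ p ∂(stm (n + 1))) := by
            rw [lintegral_const_mul' _ _ h2top, lintegral_add_left (hmeas _ hAA)]
        _ ≤ (2 : ℝ≥0∞) ^ (p - 1) * (T ^ j * (c0 * X) + T ^ j * (c0 * X)) := by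
            refine mul_le_mul' le_rfl (add_le_add ?_ ih')
            refine (hJ i hiK).trans ?_
            calc c0 * X = 1 * (c0 * X) := (one_mul _).symm
              _ ≤ _ := mul_le_mul' hT1 le_rfl
        _ = T ^ (j + 1) * (c0 * X) := by
            rw [← two_mul, ← mul_assoc, two_mul_rpow, pow_succ, ← mul_assoc, ← hTdef]
            ring
  have hfin := hind K le_rfl
  rw [Nat.sub_self] at hfin
  rw [st_eq (fun q => ‖MM (mT lam q.1) (f : EE (n + 1) → ℂ) q.2‖ₑ ^ p) (hmeas _ hf)]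
  refine hfin.trans (le_of_eq ?_)
  rw [hX]
  ring

end Pool.Agent.H20.BR
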