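import Mathlib
import Pool.Agent.H93.AR.TargetsD
import Pool.Agent.H19.LS.STRONG

set_option autoImplicit false

namespace Pool.Agent.H20.BR

open MeasureTheory Set FourierTransform Pool.Agent.H93.AR Pool.Agent.H83.LS Pool.Agent.H54.LS
open Pool.Agent.H19.LS
open scoped ENNReal NNReal ContDiff

/-- restricted type estimate, fixed times -/
theorem restr0 (hRADL : T_RADL) (hPLE : T_PLE) (n : ℕ) (q : ℝ)
    (hn : 1 ≤ n) (hq : 2 < q) : ∃ C : ℝ, 0 ≤ C ∧ ∀ (lam A : ℝ)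
    (f : EE (n + 1) → ℂ), 1 ≤ lam → BCd A f →
    ∫⁻ p, ‖MM (mT lam p.1) f p.2‖ₑ ^ q ∂(stm (n + 1)) ≤
      ENNReal.ofReal (C * (lam ^ ((n : ℝ) * (q / 2 - 1)) * A ^ (q - 2))) * ∫⁻ x, ‖f x‖ₑ ^ 2 := by
  have hn0 : (0 : ℝ) < n := by
    have : 0 < n := by omega
    exact_mod_cast this
  have hmeas : ∀ (r lam : ℝ) (f : EE (n + 1) → ℂ), 1 ≤ lam → Integrable f →
      Measurable fun p : ℝ × EE (n + 1) => ‖MM (mT lam p.1) f p.2‖ₑ ^ r := fun r lam f hl hf =>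
    (MM_cont lam (by linarith) f hf).measurable.enorm.pow_const r
  obtain ⟨M, C1, hC1⟩ := hRADL (n + 1) (by omega)
  obtain ⟨B, hB0, hB⟩ := chi_CB M
  refine ⟨(|C1 * B| * 3 ^ ((n : ℝ) / 2)) ^ (q - 2), by positivity, fun lam A f hl hf => ?_⟩
  have hA0 : 0 ≤ A := (norm_nonneg _).trans (hf.2.1 0)
  have hl0 : 0 < lam := by linarith
  have hfi := BCd_int A f hf
  have hsup : ∀ t ∈ Icc (1 : ℝ) 2, ∀ x, ‖MM (mT lam t) f x‖ₑ ≤
      ENNReal.ofReal (|C1 * B| * 3 ^ ((n : ℝ) / 2) * lam ^ ((n : ℝ) / 2) * A) := by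
    intro t ht x
    refine (MM_sup lam hl0 hPLE t f hfi hf.1 A hf.2.1 x).trans ?_
    rw [ENNReal.ofReal_mul (by positivity)]
    apply mul_le_mul' _ le_rfl
    have h1 := (hC1 (fun σ => ((chi σ : ℝ) : ℂ)) B lam t hB hl0 (by linarith [ht.1])).1
    refine h1.trans (ENNReal.ofReal_le_ofReal ?_)
    have h2 : (1 + lam * t) ^ ((((n + 1 : ℕ) : ℝ) - 1) / 2) ≤ 3 ^ ((n : ℝ) / 2) *
        lam ^ ((n : ℝ) / 2) := by
      rw [← Real.mul_rpow (by norm_num) hl0.le]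
      have h3 : (((n + 1 : ℕ) : ℝ) - 1) / 2 = (n : ℝ) / 2 := by
        push_cast
        ring
      rw [h3]
      apply Real.rpow_le_rpow
      · have := ht.1
        positivity
      · nlinarith [ht.2]
      · positivity
    calc C1 * B * (1 + lam * t) ^ ((((n + 1 : ℕ) : ℝ) - 1) / 2)
        ≤ |C1 * B| * (1 + lam * t) ^ ((((n + 1 : ℕ) : ℝ) - 1) / 2) := by
          apply mul_le_mul_of_nonneg_right (le_abs_self _)
          apply Real.rpow_nonneg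
          have := ht.1
          positivity
      _ ≤ |C1 * B| * (3 ^ ((n : ℝ) / 2) * lam ^ ((n : ℝ) / 2)) :=
          mul_le_mul_of_nonneg_left h2 (abs_nonneg _)
      _ = _ := by ring
  set S : ℝ := |C1 * B| * 3 ^ ((n : ℝ) / 2) * lam ^ ((n : ℝ) / 2) * A with hS
  have hS0 : 0 ≤ S := by positivity
  have hqr : 0 ≤ q - 2 := by linarith
  have hpt : ∀ᵐ p ∂(stm (n + 1)), ‖MM (mT lam p.1) f p.2‖ₑ ^ q ≤
      ENNReal.ofReal (S ^ (q - 2)) * ‖MM (mT lam p.1) f p.2‖ₑ ^ (2 : ℝ) := by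
    have h1 : ∀ᵐ p ∂(stm (n + 1)), p.1 ∈ Icc (1 : ℝ) 2 := by
      have := (Measure.quasiMeasurePreserving_fst (μ := volume.restrict (Icc (1 : ℝ) 2))
        (ν := (volume : Measure (EE (n + 1))))).ae (ae_restrict_mem measurableSet_Icc)
      exact this
    filter_upwards [h1] with p hp
    have h2 : ‖MM (mT lam p.1) f p.2‖ₑ ^ q = ‖MM (mT lam p.1) f p.2‖ₑ ^ (q - 2) *
        ‖MM (mT lam p.1) f p.2‖ₑ ^ (2 : ℝ) := by
      rw [← ENNReal.rpow_add_of_nonneg _ _ hqr (by norm_num)]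
      congr 1
      ring
    rw [h2, ← ENNReal.ofReal_rpow_of_nonneg hS0 hqr]
    apply mul_le_mul' _ le_rfl
    exact ENNReal.rpow_le_rpow (hsup p.1 hp p.2) hqr
  have hL2 : ∫⁻ p, ‖MM (mT lam p.1) f p.2‖ₑ ^ (2 : ℝ) ∂(stm (n + 1)) ≤ ∫⁻ x, ‖f x‖ₑ ^ 2 := by
    rw [← st_eq _ (hmeas 2 lam f hl hfi)]
    calc ∫⁻ t in Icc (1 : ℝ) 2, ∫⁻ x, ‖MM (mT lam t) f x‖ₑ ^ (2 : ℝ)
        ≤ ∫⁻ _t in Icc (1 : ℝ) 2, ∫⁻ x, ‖f x‖ₑ ^ 2 := by
          refine lintegral_mono fun t => ?_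
          have h1 := (hPLE (n + 1) (mT lam t) f (mT_cont lam hl0 t).measurable (mT_le lam hl0 t)
            (mT_int lam hl0 t) hfi ⟨A, hf.2.1⟩ hf.1).2
          refine le_trans (le_of_eq ?_) h1
          refine lintegral_congr fun x => ?_
          exact ENNReal.rpow_natCast _ 2
      _ = ∫⁻ x, ‖f x‖ₑ ^ 2 := by
          rw [setLIntegral_const, Real.volume_Icc]
          norm_num
  calc ∫⁻ p, ‖MM (mT lam p.1) f p.2‖ₑ ^ q ∂(stm (n + 1))
      ≤ ∫⁻ p, ENNReal.ofReal (S ^ (q - 2)) * ‖MM (mT lam p.1) f p.2‖ₑ ^ (2 : ℝ) ∂(stm (n + 1)) :=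
        lintegral_mono_ae hpt
    _ = ENNReal.ofReal (S ^ (q - 2)) * ∫⁻ p, ‖MM (mT lam p.1) f p.2‖ₑ ^ (2 : ℝ) ∂(stm (n + 1)) :=
        lintegral_const_mul' _ _ ENNReal.ofReal_ne_top
    _ ≤ ENNReal.ofReal (S ^ (q - 2)) * ∫⁻ x, ‖f x‖ₑ ^ 2 := mul_le_mul' le_rfl hL2
    _ = _ := by
        congr 2
        have e1 : S ^ (q - 2) = (|C1 * B| * 3 ^ ((n : ℝ) / 2)) ^ (q - 2) *
            (lam ^ ((n : ℝ) / 2)) ^ (q - 2) * A ^ (q - 2) := by
          rw [hS, Real.mul_rpow (by positivity) hA0, Real.mul_rpow (by positivity) (by positivity)]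
        have e2 : (lam ^ ((n : ℝ) / 2)) ^ (q - 2) = lam ^ ((n : ℝ) * (q / 2 - 1)) := by
          rw [← Real.rpow_mul hl0.le]
          congr 1
          ring
        rw [e1, e2]
        ring

/-- strong type for bounded functions with compact support -/
theorem fx_BCd (hMARC : T_MARC) (hRADL : T_RADL) (hPLE : T_PLE) (n : ℕ)
    (p η : ℝ) (hn : 1 ≤ n) (hp2 : 2 < p) (hη : 0 < η) : ∃ C : ℝ≥0, ∀ (lam A : ℝ)
    (f : EE (n + 1) → ℂ), 1 ≤ lam → BCd A f →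
    ∫⁻ q, ‖MM (mT lam q.1) f q.2‖ₑ ^ p ∂(stm (n + 1)) ≤
      C * ENNReal.ofReal (lam ^ ((n : ℝ) * (p / 2 - 1) + η)) * ∫⁻ x, ‖f x‖ₑ ^ p := by
  have hn0 : (0 : ℝ) < n := by
    have : 0 < n := by omega
    exact_mod_cast this
  set q₁ := (2 + p) / 2 with hq₁
  set q₂ := p + η / n with hq₂
  have hηn : 0 < η / n := by positivity
  obtain ⟨C₁, hC₁0, hC₁⟩ := restr0 hRADL hPLE n q₁ hn (by linarith)
  obtain ⟨C₂, hC₂0, hC₂⟩ := restr0 hRADL hPLE n q₂ hn (by linarith)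
  obtain ⟨C, hC⟩ := hMARC q₁ p q₂ (by linarith) (by linarith) (by linarith)
  set C' : ℝ := C₁ * 2 ^ q₁ + C₂ * 2 ^ q₂ with hC'
  have hC'0 : 0 ≤ C' := by positivity
  refine ⟨C * C'.toNNReal, fun lam A f hl hf => ?_⟩
  have hl0 : 0 < lam := by linarith
  have hEx1 : (n : ℝ) * (q₁ / 2 - 1) ≤ (n : ℝ) * (p / 2 - 1) + η := by
    have : q₁ / 2 - 1 ≤ p / 2 - 1 := by linarith
    nlinarith
  have hEx2 : (n : ℝ) * (q₂ / 2 - 1) ≤ (n : ℝ) * (p / 2 - 1) + η := by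
    have h1 : (n : ℝ) * (q₂ / 2 - 1) = (n : ℝ) * (p / 2 - 1) + η / 2 := by
      rw [hq₂]
      field_simp
      ring
    linarith
  set B : ℝ≥0∞ := ENNReal.ofReal (C' * lam ^ ((n : ℝ) * (p / 2 - 1) + η)) with hB
  have hgen : ∀ (q Cq : ℝ), 2 < q → 0 ≤ Cq → Cq * 2 ^ q ≤ C' →
      (n : ℝ) * (q / 2 - 1) ≤ (n : ℝ) * (p / 2 - 1) + η → (∀ (lam A : ℝ)
      (f : EE (n + 1) → ℂ), 1 ≤ lam → BCd A f →
      ∫⁻ p, ‖MM (mT lam p.1) f p.2‖ₑ ^ q ∂(stm (n + 1)) ≤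
      ENNReal.ofReal (Cq * (lam ^ ((n : ℝ) * (q / 2 - 1)) * A ^ (q - 2))) * ∫⁻ x, ‖f x‖ₑ ^ 2) →
      ∀ l : ℤ, ∫⁻ y, ‖MM (mT lam y.1) (pc f l) y.2‖ₑ ^ q ∂(stm (n + 1)) ≤
        B * ENNReal.ofReal ((2 : ℝ) ^ ((l : ℝ) * q)) * volume (lev f l) := by
    intro q Cq hq hCq hCC hEx hR l
    refine (hR lam _ (pc f l) hl (pc_BCd A f hf l)).trans ?_
    refine (mul_le_mul' le_rfl (pc_l2 f hf.1 l)).trans ?_
    rw [← mul_assoc]
    apply mul_le_mul' _ le_rfl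
    have hpos : (0 : ℝ) < (2 : ℝ) ^ ((l : ℝ) + 1) := by positivity
    rw [← ENNReal.ofReal_mul (by positivity), hB, ← ENNReal.ofReal_mul (by positivity)]
    apply ENNReal.ofReal_le_ofReal
    have e1 : ((2 : ℝ) ^ ((l : ℝ) + 1)) ^ (q - 2) * ((2 : ℝ) ^ ((l : ℝ) + 1)) ^ (2 : ℝ)
        = (2 : ℝ) ^ q * (2 : ℝ) ^ ((l : ℝ) * q) := by
      rw [← Real.rpow_add hpos, ← Real.rpow_mul (by norm_num), ← Real.rpow_add (by norm_num)]
      congr 1
      ring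
    have e2 : lam ^ ((n : ℝ) * (q / 2 - 1)) ≤ lam ^ ((n : ℝ) * (p / 2 - 1) + η) :=
      Real.rpow_le_rpow_of_exponent_le hl hEx
    calc Cq * (lam ^ ((n : ℝ) * (q / 2 - 1)) * ((2 : ℝ) ^ ((l : ℝ) + 1)) ^ (q - 2)) *
          ((2 : ℝ) ^ ((l : ℝ) + 1)) ^ (2 : ℝ)
        = (Cq * 2 ^ q) * lam ^ ((n : ℝ) * (q / 2 - 1)) * (2 : ℝ) ^ ((l : ℝ) * q) := by
          rw [mul_assoc Cq, mul_assoc (lam ^ _), e1]
          ring
      _ ≤ _ := by gcongr
  have hgm : ∀ l : ℤ, Measurable fun y : ℝ × EE (n + 1) => ‖MM (mT lam y.1) (pc f l) y.2‖ₑ :=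
    fun l => (MM_cont lam hl0 (pc f l) (BCd_int _ _ (pc_BCd A f hf l))).measurable.enorm
  have h1 := hC (ℝ × EE (n + 1)) (stm (n + 1)) (fun l y => ‖MM (mT lam y.1) (pc f l) y.2‖ₑ)
    (fun l => volume (lev f l)) B hgm
    (hgen q₁ C₁ (by linarith) hC₁0 (by
      have : 0 ≤ C₂ * 2 ^ q₂ := by positivity
      linarith) hEx1 hC₁)
    (hgen q₂ C₂ (by linarith) hC₂0 (by
      have : 0 ≤ C₁ * 2 ^ q₁ := by positivity
      linarith) hEx2 hC₂)
  calc ∫⁻ q, ‖MM (mT lam q.1) f q.2‖ₑ ^ p ∂(stm (n + 1))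
      ≤ ∫⁻ q, (∑' l : ℤ, ‖MM (mT lam q.1) (pc f l) q.2‖ₑ) ^ p ∂(stm (n + 1)) := by
        refine lintegral_mono fun q => ?_
        exact ENNReal.rpow_le_rpow (MM_tsum lam hl0 hPLE q.1 A f hf q.2) (by linarith)
    _ ≤ _ := h1
    _ ≤ C * B * ∫⁻ x, ‖f x‖ₑ ^ p := mul_le_mul' le_rfl (lev_sum f hf.1 p (by linarith))
    _ = _ := by
        rw [hB, ENNReal.ofReal_mul hC'0]
        push_cast
        rw [← mul_assoc]
        rfl

theorem pf_fx (hMARC : T_MARC) (hRADL : T_RADL) (hPLE : T_PLE) : T_FX := by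
  intro n p η hn hp hη
  obtain ⟨C, hC⟩ := fx_BCd hMARC hRADL hPLE n p η hn hp hη
  refine ⟨C, fun lam f hl hm hfi ⟨A, hA⟩ => ?_⟩
  have hl0 : 0 < lam := by linarith
  have hp0 : 0 ≤ p := by linarith
  set fk : ℕ → EE (n + 1) → ℂ := fun k => (Metric.closedBall (0 : EE (n + 1)) k).indicator f
    with hfk
  have hmk : ∀ k, Measurable (fk k) := fun k => hm.indicator measurableSet_closedBall
  have hle : ∀ k x, ‖fk k x‖ ≤ ‖f x‖ := fun k x => norm_indicator_le_norm_self f x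
  have hBC : ∀ k, BCd A (fk k) := by
    intro k
    refine ⟨hmk k, fun x => (hle k x).trans (hA x), k, fun x hx => ?_⟩
    rw [hfk]
    simp only
    rw [indicator_of_notMem]
    rw [mem_closedBall_zero_iff, not_le]
    exact hx
  have hmeas : ∀ g : EE (n + 1) → ℂ, Integrable g →
      Measurable fun q : ℝ × EE (n + 1) => ‖MM (mT lam q.1) g q.2‖ₑ ^ p := fun g hg =>
    (MM_cont lam hl0 g hg).measurable.enorm.pow_const p
  have hconv : ∀ q : ℝ × EE (n + 1), Filter.Tendsto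
      (fun k => ‖MM (mT lam q.1) (fk k) q.2‖ₑ ^ p) Filter.atTop
      (nhds (‖MM (mT lam q.1) f q.2‖ₑ ^ p)) := by
    intro q
    apply Filter.Tendsto.ennrpow_const
    apply Filter.Tendsto.enorm
    rw [MM_conv lam hl0 hPLE q.1 f hfi hm ⟨A, hA⟩ q.2]
    have e2 : ∀ k, MM (mT lam q.1) (fk k) q.2 = ∫ y, MK (mT lam q.1) (q.2 - y) * fk k y := fun k =>
      MM_conv lam hl0 hPLE q.1 (fk k) (BCd_int A _ (hBC k)) (hmk k) ⟨A, (hBC k).2.1⟩ q.2
    simp_rw [e2]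
    have hKm : AEStronglyMeasurable (fun y : EE (n + 1) => MK (mT lam q.1) (q.2 - y)) :=
      ((MK_cont lam hl0 q.1).comp (continuous_const.sub continuous_id)).aestronglyMeasurable
    apply tendsto_integral_of_dominated_convergence
      (fun y => ‖MK (mT lam q.1) (q.2 - y) * f y‖)
    · intro k
      exact hKm.mul (hmk k).aestronglyMeasurable
    · exact (hfi.bdd_mul (c := ∫ ξ : EE (n + 1), ‖mT lam q.1 ξ‖) hKm
        (Filter.Eventually.of_forall fun y => MK_le lam hl0 q.1 _)).norm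
    · intro k
      refine Filter.Eventually.of_forall fun y => ?_
      rw [norm_mul, norm_mul]
      exact mul_le_mul_of_nonneg_left (hle k y) (norm_nonneg _)
    · refine Filter.Eventually.of_forall fun y => ?_
      apply Filter.Tendsto.const_mul
      obtain ⟨k0, hk0⟩ := exists_nat_ge ‖y‖
      refine tendsto_const_nhds.congr' ?_
      filter_upwards [Filter.eventually_ge_atTop k0] with k hk
      rw [hfk]
      simp only
      rw [indicator_of_mem]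
      rw [mem_closedBall_zero_iff]
      exact hk0.trans (by exact_mod_cast hk)
  rw [st_eq (fun q => ‖MM (mT lam q.1) f q.2‖ₑ ^ p) (hmeas f hfi)]
  calc ∫⁻ q, ‖MM (mT lam q.1) f q.2‖ₑ ^ p ∂(stm (n + 1))
      = ∫⁻ q, Filter.liminf (fun k => ‖MM (mT lam q.1) (fk k) q.2‖ₑ ^ p) Filter.atTop
          ∂(stm (n + 1)) := by
        refine lintegral_congr fun q => ?_
        exact (hconv q).liminf_eq.symm
    _ ≤ Filter.liminf (fun k => ∫⁻ q, ‖MM (mT lam q.1) (fk k) q.2‖ₑ ^ p ∂(stm (n + 1)))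
          Filter.atTop :=
        lintegral_liminf_le fun k => hmeas (fk k) (BCd_int A _ (hBC k))
    _ ≤ _ := by
        apply Filter.liminf_le_of_frequently_le'
        apply Filter.Frequently.of_forall
        intro k
        refine (hC lam A (fk k) hl (hBC k)).trans ?_
        apply mul_le_mul' le_rfl
        refine lintegral_mono fun x => ?_
        apply ENNReal.rpow_le_rpow _ hp0
        rw [← ofReal_norm, ← ofReal_norm]
        exact ENNReal.ofReal_le_ofReal (hle k x)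

end Pool.Agent.H20.BR
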